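import Pool.Agent.H126T.End

/-!
# The pole of `L₂` at `s = 2` for products of quadratic twists of curves over a number field

`K` is any number field, `C₁, …, C_r` are hyperelliptic curves `y² = f_i(x)` over `K` with `f_i` of
odd degree `2 g_i + 1 ≥ 3` (all elliptic curves are of this kind), and for `d = (d₁, …, d_r)` the
variety `X_d = ∏ C_{i, d_i}` is the product of the quadratic twists `d_i y² = f_i(x)`.  By the
Künneth formula `H²(X_d)` is the sum of the `r` lines `H²(C_{i, d_i})` and of the spaces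
`H¹(C_{i, d_i}) ⊗ H¹(C_{j, d_j})`, `i < j`.  Apart from finitely many square classes of the products
`d_i d_j` the rank of `NS(X_d / K)` is `r`.
-/

set_option autoImplicit false

namespace Pool.Agent.Results.MP_1f4fc7_nt.ProductsOfCurves

open NumberField IsDedekindDomain Filter Topology Polynomial

/-- Number of affine points of `d y² = f(x)` with coordinates in the extension of degree `m` of the
finite field `k`, that is, the field of the elements of the algebraic closure of `k` that are fixed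
by the `m`-th power of the Frobenius of `k`. -/
noncomputable def affineCount (k : Type) [Field k] (f : k[X]) (d : k) (m : ℕ) : ℕ :=
  Nat.card {P : AlgebraicClosure k × AlgebraicClosure k //
    P.1 ^ (Nat.card k ^ m) = P.1 ∧ P.2 ^ (Nat.card k ^ m) = P.2 ∧
    algebraMap k (AlgebraicClosure k) d * P.2 ^ 2 = aeval P.1 f}

/-- Trace of the `m`-th power of the Frobenius at `v` on `H¹` of the smooth projective curve
`d y² = f(x)`, `deg f` odd: it is `q^m + 1` minus the number of points over the field with `q^m`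
elements, and there is one point at infinity. -/
noncomputable def traceH1 {K : Type} [Field K] [NumberField K] (v : HeightOneSpectrum (𝓞 K))
    (f : (𝓞 K)[X]) (d : 𝓞 K) (m : ℕ) : ℤ :=
  haveI : v.asIdeal.IsMaximal := v.isMaximal
  letI : Field (𝓞 K ⧸ v.asIdeal) := Ideal.Quotient.field v.asIdeal
  (Ideal.absNorm v.asIdeal : ℤ) ^ m + 1 -
    (affineCount (𝓞 K ⧸ v.asIdeal) (f.map (Ideal.Quotient.mk v.asIdeal))
      (Ideal.Quotient.mk v.asIdeal d) m + 1)

/-- The pairs `i < j` of indices. -/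
def pairs (r : ℕ) : Finset (Fin r × Fin r) := Finset.univ.filter fun p => p.1 < p.2

/-- Trace of the `m`-th power of the Frobenius at `v` on `H²` of the product of the curves
`d_i y² = f_i(x)`, by the Künneth formula. -/
noncomputable def traceH2 {K : Type} [Field K] [NumberField K] {r : ℕ}
    (v : HeightOneSpectrum (𝓞 K)) (f : Fin r → (𝓞 K)[X]) (d : Fin r → 𝓞 K) (m : ℕ) : ℤ :=
  r * (Ideal.absNorm v.asIdeal : ℤ) ^ m +
    ∑ p ∈ pairs r, traceH1 v (f p.1) (d p.1) m * traceH1 v (f p.2) (d p.2) m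

open Classical in
/-- The Euler product `L₂(s, X_d)`.  At the primes `v` outside the finite set `S` the factor is
`det(1 - Frob q^{-s} | H²)⁻¹ = exp(∑_{m ≥ 1} Tr(Frob^m | H²) q^{-ms} / m)`; at the primes of `S`,
which contains the primes of bad reduction, it is `B_v(q^{-s})⁻¹` for a polynomial `B_v`. -/
noncomputable def L₂ {K : Type} [Field K] [NumberField K] {r : ℕ} (f : Fin r → (𝓞 K)[X])
    (d : Fin r → 𝓞 K) (S : Finset (HeightOneSpectrum (𝓞 K)))
    (B : HeightOneSpectrum (𝓞 K) → ℂ[X]) (s : ℂ) : ℂ :=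
  ∏' v : HeightOneSpectrum (𝓞 K),
    if v ∈ S then ((B v).eval (((Ideal.absNorm v.asIdeal : ℕ) : ℂ) ^ (-s)))⁻¹
    else Complex.exp (∑' m : ℕ, (traceH2 v f d (m + 1) : ℂ) *
      ((Ideal.absNorm v.asIdeal : ℕ) : ℂ) ^ (-((m + 1 : ℂ) * s)) / (m + 1 : ℂ))

/-- **Pole order of `L₂` for products of quadratic twists.**  Let `T` be a finite set of indices
`k`, each with a vector `d k` of nonzero twists and a height `τ k`, such that for `k ≠ l` in `T` and
all `i < j` the number `d_i(k) d_j(k) d_i(l) d_j(l)` is not a square in `K`, or `τ k ≠ τ l`.  Let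
`N = ∑_{i < j} 2 g_i · 2 g_j`.

1. (No hypothesis on continuation.)  For every `η > 0` and all sufficiently small `ε > 0`,
`∑_k (log |L₂(2 + iτ_k + ε, X_{d(k)})| / log(1/ε) - r [τ_k = 0])² ≤ N² + η`.

2. If `Λ k`, for `k ∈ T`, are meromorphic continuations of `L₂(s, X_{d(k)})` to neighbourhoods of
`2 + iτ_k`, their orders `m k` there are finite, `∑_k (m_k + r [τ_k = 0])² ≤ N²`, and so for at
most `N²` of the `k ∈ T` with `τ_k = 0` the pole of `L₂(s, X_{d(k)})` at `s = 2` has an order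
different from `r`. -/
theorem result (K : Type) [Field K] [NumberField K] (r : ℕ) (f : Fin r → (𝓞 K)[X])
    (hodd : ∀ i, Odd (f i).natDegree) (h3 : ∀ i, 3 ≤ (f i).natDegree)
    (κ : Type) (T : Finset κ) (d : κ → Fin r → 𝓞 K) (τ : κ → ℝ)
    (hd0 : ∀ k ∈ T, ∀ i, d k i ≠ 0)
    (hsep : ∀ k ∈ T, ∀ l ∈ T, k ≠ l → ∀ i j, i < j →
      IsSquare ((d k i * d k j * d l i * d l j : 𝓞 K) : K) → τ k ≠ τ l)
    (S : κ → Finset (HeightOneSpectrum (𝓞 K)))
    (hS : ∀ k ∈ T, ∀ v, v ∉ S k → ∀ i, 2 * d k i * (f i).leadingCoeff ∉ v.asIdeal ∧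
      ((f i).map (Ideal.Quotient.mk v.asIdeal)).Separable)
    (B : κ → HeightOneSpectrum (𝓞 K) → ℂ[X])
    (hB : ∀ k ∈ T, ∀ v ∈ S k, ∀ s : ℂ, s.re = 2 →
      (B k v).eval (((Ideal.absNorm v.asIdeal : ℕ) : ℂ) ^ (-s)) ≠ 0)
    (N : ℕ) (hN : N = ∑ p ∈ pairs r, ((f p.1).natDegree - 1) * ((f p.2).natDegree - 1)) :
    (∀ η : ℝ, 0 < η → ∀ᶠ ε : ℝ in 𝓝[>] 0,
      ∑ k ∈ T, (Real.log ‖L₂ f (d k) (S k) (B k) (2 + τ k * Complex.I + ε)‖ /
        Real.log (1 / ε) - if τ k = 0 then (r : ℝ) else 0) ^ 2 ≤ (N : ℝ) ^ 2 + η) ∧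
    (∀ Λ : κ → ℂ → ℂ, (∀ k ∈ T, MeromorphicAt (Λ k) (2 + τ k * Complex.I) ∧
      ∀ᶠ s in 𝓝 ((2 : ℂ) + τ k * Complex.I), 2 < s.re →
        Λ k s = L₂ f (d k) (S k) (B k) s) →
      ∃ m : κ → ℤ, (∀ k ∈ T, meromorphicOrderAt (Λ k) (2 + τ k * Complex.I) = m k) ∧
        ∑ k ∈ T, (m k + if τ k = 0 then (r : ℤ) else 0) ^ 2 ≤ (N : ℤ) ^ 2 ∧
        (T.filter fun k => τ k = 0 ∧ m k ≠ -(r : ℤ)).card ≤ N ^ 2) := by
  classical
  obtain ⟨h1, h2⟩ := Pool.Agent.H126T.main f hodd h3 T d τ hd0 hsep S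
    (fun k hk v hv i => (hS k hk v hv i).1) B hB N hN
  refine ⟨h1, fun Λ hΛ => ?_⟩
  obtain ⟨m, hm1, hm2⟩ := h2 Λ hΛ
  refine ⟨m, hm1, hm2, ?_⟩
  have h5 : ((T.filter fun k => τ k = 0 ∧ m k ≠ -(r : ℤ)).card : ℤ) ≤
      ∑ k ∈ T, (m k + if τ k = 0 then (r : ℤ) else 0) ^ 2 := by
    rw [Finset.card_eq_sum_ones]
    push_cast
    rw [Finset.sum_filter]
    refine Finset.sum_le_sum fun k _ => ?_
    split_ifs with h6 h7 h7
    · have h8 : m k + r ≠ 0 := fun h => h6.2 (by linarith)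
      have := Int.one_le_abs h8
      nlinarith [sq_abs (m k + (r : ℤ))]
    · exact absurd h6.1 h7
    · positivity
    · positivity
  exact_mod_cast h5.trans hm2

end Pool.Agent.Results.MP_1f4fc7_nt.ProductsOfCurves
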